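import Mathlib

/-!
# Weil–Deligne representations and the Euler factors of their twists

`W` is the Weil group of a nonarchimedean local field with residue field of `q` elements and
`deg : W → ℤ` (written multiplicatively) the exponent of the geometric Frobenius; its kernel is the
inertia group.
-/

namespace Pool.Agent.R914.WD

open Polynomial

variable {W : Type} [Group W] [TopologicalSpace W]

/-- A Weil–Deligne representation of `W` on the vector space `V` over `K`: an action `r` of `W`, trivial
on an open subgroup of the inertia group, and a monodromy operator `N` with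
`N ∘ r w = q ^ (deg w) r w ∘ N` (over a field of characteristic `0` and for `q ≥ 2` it is automatically
nilpotent). -/
structure WDRep (deg : W →* Multiplicative ℤ) (q : ℕ) (K V : Type) [Field K] [AddCommGroup V]
    [Module K V] where
  /-- the action of the Weil group -/
  r : W →* Module.End K V
  /-- the monodromy operator -/
  N : Module.End K V
  comm : ∀ w : W, N * r w = ((q : K) ^ (Multiplicative.toAdd (deg w))) • (r w * N)
  smooth : ∃ J : Subgroup W, IsOpen (J : Set W) ∧ ∀ g ∈ J, deg g = 1 ∧ r g = 1

/-- `w` normalises `J`. -/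
def Normalises (w : W) (J : Subgroup W) : Prop := ∀ g : W, g ∈ J ↔ w * g * w⁻¹ ∈ J

namespace WDRep

variable {deg : W →* Multiplicative ℤ} {q : ℕ} {K V : Type} [Field K] [AddCommGroup V] [Module K V]
  (D : WDRep deg q K V)

lemma comm_apply (w : W) (v : V) :
    D.N (D.r w v) = ((q : K) ^ (Multiplicative.toAdd (deg w))) • D.r w (D.N v) := by
  have := congrArg (fun f : Module.End K V => f v) (D.comm w)
  simpa using this

lemma pow_comm (i : ℕ) (w : W) (v : V) :
    (D.N ^ i) (D.r w v) =
      (((q : K) ^ (Multiplicative.toAdd (deg w))) ^ i) • D.r w ((D.N ^ i) v) := by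
  induction i with
  | zero => simp
  | succ i ih =>
    rw [pow_succ', Module.End.mul_apply, ih, map_smul, comm_apply, smul_smul, ← pow_succ,
      Module.End.mul_apply]

/-- The invariants of the open subgroup `J` of the inertia group: the vectors of the kernel of `N` which
are fixed by `J`. -/
def inv (J : Subgroup W) : Submodule K V where
  carrier := {v | D.N v = 0 ∧ ∀ g ∈ J, D.r g v = v}
  add_mem' := fun {u v} hu hv => ⟨by rw [map_add, hu.1, hv.1, add_zero], fun g hg => by
    rw [map_add, hu.2 g hg, hv.2 g hg]⟩
  zero_mem' := ⟨map_zero _, fun g _ => map_zero _⟩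
  smul_mem' := fun c v hv => ⟨by rw [map_smul, hv.1, smul_zero], fun g hg => by
    rw [map_smul, hv.2 g hg]⟩

lemma inv_stable (J : Subgroup W) {w : W} (hw : Normalises w J) (v : V) (hv : v ∈ D.inv J) :
    D.r w v ∈ D.inv J := by
  refine ⟨?_, fun g hg => ?_⟩
  · rw [comm_apply, hv.1, map_zero, smul_zero]
  · have h1 : w⁻¹ * g * w ∈ J := by
      rw [hw]
      simpa [mul_assoc] using hg
    have h2 := hv.2 _ h1
    calc D.r g (D.r w v) = D.r w (D.r (w⁻¹ * g * w) v) := by
          rw [← Module.End.mul_apply, ← Module.End.mul_apply, ← map_mul, ← map_mul]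
          congr 2
          group
      _ = D.r w v := by rw [h2]

/-- **The Euler factor** `det (1 - T w)` on the invariants of `J`. -/
noncomputable def euler [FiniteDimensional K V] (J : Subgroup W) (w : W) (hw : Normalises w J) :
    K[X] :=
  ((D.r w).restrict (D.inv_stable J hw)).charpoly.reverse

lemma pow_stable (i : ℕ) (w : W) (v : V) (hv : v ∈ LinearMap.ker (D.N ^ i)) :
    D.r w v ∈ LinearMap.ker (D.N ^ i) := by
  rw [LinearMap.mem_ker] at hv ⊢
  rw [pow_comm, hv, map_zero, smul_zero]

/-- **The trace of `w` on the kernel of `N ^ i`.** -/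
noncomputable def tr (i : ℕ) (w : W) : K :=
  LinearMap.trace K _ ((D.r w).restrict (D.pow_stable i w))

/-- The action of `W` on `V ⊗ Sp(k+1)`. -/
def twR [CharZero K] [NeZero q] (k : ℕ) : W →* Module.End K (Fin (k + 1) → V) where
  toFun w := LinearMap.pi fun j =>
    ((q : K) ^ (-((j : ℕ) : ℤ) * Multiplicative.toAdd (deg w))) • (D.r w ∘ₗ LinearMap.proj j)
  map_one' := by
    ext v j
    simp
  map_mul' w w' := by
    have hq' : (q : K) ≠ 0 := NeZero.ne _
    refine LinearMap.ext fun v => funext fun j => ?_
    simp only [map_mul, toAdd_mul, mul_add, zpow_add₀ hq', LinearMap.pi_apply,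
      LinearMap.smul_apply, LinearMap.comp_apply, LinearMap.proj_apply, Module.End.mul_apply,
      map_smul, smul_smul]

/-- The monodromy operator of `V ⊗ Sp(k+1)`. -/
def twN (k : ℕ) : Module.End K (Fin (k + 1) → V) :=
  LinearMap.pi fun j => D.N ∘ₗ LinearMap.proj j +
    Fin.cases (motive := fun _ => (Fin (k + 1) → V) →ₗ[K] V) 0
      (fun i : Fin k => LinearMap.proj i.castSucc) j

lemma twR_apply [CharZero K] [NeZero q] (k : ℕ) (w : W) (v : Fin (k + 1) → V)
    (j : Fin (k + 1)) : D.twR k w v j =
      ((q : K) ^ (-((j : ℕ) : ℤ) * Multiplicative.toAdd (deg w))) • D.r w (v j) := rfl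

lemma twN_zero (k : ℕ) (v : Fin (k + 1) → V) : D.twN k v 0 = D.N (v 0) := by
  simp [twN]

lemma twN_succ (k : ℕ) (v : Fin (k + 1) → V) (i : Fin k) :
    D.twN k v i.succ = D.N (v i.succ) + v i.castSucc := by
  simp [twN]

/-- **The tensor product of `D` with the special representation `Sp(k+1)`**, which has the basis
`e 0, …, e k` with `w (e j) = q ^ (- j deg w) e j`, `N (e j) = e (j+1)` and `N (e k) = 0`: the function
`v` stands for `∑ v j ⊗ e j`. -/
def twist [CharZero K] [NeZero q] (k : ℕ) : WDRep deg q K (Fin (k + 1) → V) where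
  r := D.twR k
  N := D.twN k
  comm w := by
    have hq' : (q : K) ≠ 0 := NeZero.ne _
    refine LinearMap.ext fun v => funext fun j => ?_
    refine Fin.cases ?_ (fun i => ?_) j
    · simp only [Module.End.mul_apply, LinearMap.smul_apply, Pi.smul_apply, twR_apply, twN_zero,
        comm_apply, Fin.val_zero, Nat.cast_zero, neg_zero, zero_mul, zpow_zero, one_smul]
    · simp only [Module.End.mul_apply, LinearMap.smul_apply, Pi.smul_apply, twR_apply, twN_succ,
        comm_apply, map_add, smul_add, map_smul, smul_smul, Fin.val_succ, Fin.val_castSucc]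
      congr 1
      · rw [mul_comm]
      · rw [← zpow_add₀ hq']
        congr 2
        push_cast
        ring
  smooth := by
    obtain ⟨J, hJ, h⟩ := D.smooth
    refine ⟨J, hJ, fun g hg => ⟨(h g hg).1, ?_⟩⟩
    refine LinearMap.ext fun v => funext fun j => ?_
    rw [twR_apply, (h g hg).1, (h g hg).2]
    simp

end WDRep

/-- **The Euler factors of the twists of `D` by `Sp(k+1)` over all finite extensions are rational and
independent of `ℓ`.** A finite extension of the local field is given by its inertia group `J` (an open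
subgroup of the inertia group of `W`) and a geometric Frobenius `w` of it (an element of positive degree
which normalises `J`); its Weil group is generated by `J` and `w`. -/
def EulerIndep {deg : W →* Multiplicative ℤ} {q : ℕ} [NeZero q] {Λ : Type} {K V : Λ → Type}
    [∀ ℓ, Field (K ℓ)] [∀ ℓ, CharZero (K ℓ)] [∀ ℓ, AddCommGroup (V ℓ)] [∀ ℓ, Module (K ℓ) (V ℓ)]
    [∀ ℓ, FiniteDimensional (K ℓ) (V ℓ)] (D : ∀ ℓ, WDRep deg q (K ℓ) (V ℓ)) (k : ℕ) : Prop :=
  ∀ (J : Subgroup W) (w : W) (hw : Normalises w J), IsOpen (J : Set W) → (∀ g ∈ J, deg g = 1) →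
    0 < Multiplicative.toAdd (deg w) →
    ∃ P : ℚ[X], ∀ ℓ, ((D ℓ).twist k).euler J w hw = P.map (algebraMap ℚ (K ℓ))

end Pool.Agent.R914.WD
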