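import Pool.Agent.R914.WD.Defs

/-!
# The Euler factors of the twists determine the Weil–Deligne representation
-/

set_option linter.unusedSectionVars false

namespace Pool.Agent.R914.WD

open Polynomial

variable {W : Type} [Group W] [TopologicalSpace W]

namespace WDRep

variable {deg : W →* Multiplicative ℤ} {q : ℕ} {K V : Type} [Field K] [AddCommGroup V] [Module K V]
  (D : WDRep deg q K V)

/-- The vector of the kernel of the monodromy operator of `V ⊗ Sp(k+1)` with the last component `v`. -/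
def phi0 (k : ℕ) : V →ₗ[K] (Fin (k + 1) → V) :=
  LinearMap.pi fun j => (-D.N) ^ (k - (j : ℕ))

lemma phi0_apply (k : ℕ) (v : V) (j : Fin (k + 1)) :
    D.phi0 k v j = ((-D.N) ^ (k - (j : ℕ))) v := rfl

lemma twN_phi0 (k : ℕ) (v : V) (hv : v ∈ LinearMap.ker (D.N ^ (k + 1))) :
    D.twN k (D.phi0 k v) = 0 := by
  funext j
  refine Fin.cases ?_ (fun i => ?_) j
  · rw [twN_zero, phi0_apply, Fin.val_zero, Nat.sub_zero, neg_pow, Module.End.mul_apply]
    rw [LinearMap.mem_ker] at hv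
    rcases neg_one_pow_eq_or (Module.End K V) k with h | h
    · rw [h, Module.End.one_apply, ← Module.End.mul_apply, ← pow_succ', hv]
      rfl
    · rw [h, LinearMap.neg_apply, Module.End.one_apply, map_neg, ← Module.End.mul_apply,
        ← pow_succ', hv]
      simp
  · rw [twN_succ, phi0_apply, phi0_apply, Fin.val_succ, Fin.val_castSucc]
    have h1 : k - (i : ℕ) = (k - ((i : ℕ) + 1)) + 1 := by
      have := i.2
      omega
    rw [h1, pow_succ', Module.End.mul_apply, LinearMap.neg_apply, add_neg_cancel]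
    rfl

lemma eq_phi0 (k : ℕ) (v : Fin (k + 1) → V) (hv : D.twN k v = 0) :
    v = D.phi0 k (v (Fin.last k)) := by
  have h : ∀ m : ℕ, ∀ j : Fin (k + 1), (j : ℕ) + m = k → v j = ((-D.N) ^ m) (v (Fin.last k)) := by
    intro m
    induction m with
    | zero =>
      intro j hj
      have : j = Fin.last k := Fin.ext (by simpa using hj)
      rw [this, pow_zero, Module.End.one_apply]
    | succ m ih =>
      intro j hj
      have hjk : (j : ℕ) < k := by omega
      have h1 := congrFun hv (Fin.succ ⟨(j : ℕ), hjk⟩)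
      rw [twN_succ] at h1
      have h2 : (Fin.castSucc (⟨(j : ℕ), hjk⟩ : Fin k)) = j := Fin.ext rfl
      rw [h2, Pi.zero_apply] at h1
      rw [ih (Fin.succ ⟨(j : ℕ), hjk⟩) (by rw [Fin.val_succ]; simp only; omega)] at h1
      rw [pow_succ', Module.End.mul_apply, LinearMap.neg_apply]
      rw [add_comm] at h1
      exact eq_neg_of_add_eq_zero_left h1
  funext j
  rw [phi0_apply]
  exact h (k - j) j (by have := j.2; omega)

/-- The kernel of `N ^ (k+1)` and the invariants of `V ⊗ Sp(k+1)`. -/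
noncomputable def phi [CharZero K] [NeZero q] (k : ℕ) (J : Subgroup W) (hJ : ∀ g ∈ J, deg g = 1 ∧ D.r g = 1) :
    LinearMap.ker (D.N ^ (k + 1)) ≃ₗ[K] (D.twist k).inv J :=
  LinearEquiv.ofBijective
    (LinearMap.codRestrict ((D.twist k).inv J) (D.phi0 k ∘ₗ (LinearMap.ker (D.N ^ (k + 1))).subtype)
      (fun v => ⟨D.twN_phi0 k v v.2, fun g hg => by
        funext j
        change D.twR k g _ j = _
        rw [twR_apply, (hJ g hg).1, (hJ g hg).2]
        simp⟩))
    ⟨fun u v h => by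
      have h1 : D.phi0 k u.1 = D.phi0 k v.1 := congrArg Subtype.val h
      have h2 := congrFun h1 (Fin.last k)
      rw [phi0_apply, phi0_apply, Fin.val_last, Nat.sub_self, pow_zero, Module.End.one_apply,
        Module.End.one_apply] at h2
      exact Subtype.ext h2,
    fun v => by
      have h1 := D.eq_phi0 k v.1 v.2.1
      refine ⟨⟨v.1 (Fin.last k), ?_⟩, Subtype.ext h1.symm⟩
      rw [LinearMap.mem_ker]
      have h2 : D.N (v.1 0) = 0 := by
        have := congrFun v.2.1 0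
        exact (D.twN_zero k v.1).symm.trans this
      have h3 := congrFun h1 0
      rw [phi0_apply, Fin.val_zero, Nat.sub_zero] at h3
      rw [h3, neg_pow, Module.End.mul_apply] at h2
      rcases neg_one_pow_eq_or (Module.End K V) k with h | h
      · rw [h, Module.End.one_apply, ← Module.End.mul_apply, ← pow_succ'] at h2
        exact h2
      · rw [h, LinearMap.neg_apply, Module.End.one_apply, map_neg, ← Module.End.mul_apply,
          ← pow_succ', neg_eq_zero] at h2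
        exact h2⟩

lemma phi_apply [CharZero K] [NeZero q] (k : ℕ) (J : Subgroup W)
    (hJ : ∀ g ∈ J, deg g = 1 ∧ D.r g = 1) (v : LinearMap.ker (D.N ^ (k + 1))) (j : Fin (k + 1)) :
    (D.phi k J hJ v).1 j = ((-D.N) ^ (k - (j : ℕ))) v.1 := rfl

/-- The action of `w` on the kernel of `N ^ i`. -/
noncomputable def act (i : ℕ) (w : W) : Module.End K (LinearMap.ker (D.N ^ i)) :=
  (D.r w).restrict (D.pow_stable i w)

lemma act_mul (i : ℕ) (w w' : W) : D.act i (w * w') = D.act i w * D.act i w' := by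
  refine LinearMap.ext fun v => Subtype.ext ?_
  simp [act]

lemma act_one (i : ℕ) : D.act i 1 = 1 := by
  refine LinearMap.ext fun v => Subtype.ext ?_
  simp [act]

lemma neg_pow_comm (i : ℕ) (w : W) (v : V) :
    ((-D.N) ^ i) (D.r w v) =
      (((q : K) ^ (Multiplicative.toAdd (deg w))) ^ i) • D.r w (((-D.N) ^ i) v) := by
  induction i with
  | zero => simp
  | succ i ih =>
    rw [pow_succ', Module.End.mul_apply, ih, map_smul, LinearMap.neg_apply, comm_apply, ← smul_neg,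
      smul_smul, ← pow_succ, Module.End.mul_apply, LinearMap.neg_apply, map_neg]

lemma euler_eq [CharZero K] [NeZero q] [FiniteDimensional K V] (k : ℕ) (J : Subgroup W)
    (hJ : ∀ g ∈ J, deg g = 1 ∧ D.r g = 1) (w : W) (hw : Normalises w J) :
    (D.twist k).euler J w hw =
      (((q : K) ^ (-(k : ℤ) * Multiplicative.toAdd (deg w))) • D.act (k + 1) w).charpoly.reverse := by
  rw [euler]
  congr 1
  rw [← LinearEquiv.charpoly_conj (D.phi k J hJ)]
  congr 1
  refine LinearMap.ext fun v => ?_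
  obtain ⟨u, rfl⟩ := (D.phi k J hJ).surjective v
  rw [LinearEquiv.conj_apply_apply, LinearEquiv.symm_apply_apply]
  refine Subtype.ext (funext fun j => ?_)
  rw [phi_apply]
  change D.twR k w (D.phi k J hJ u).1 j = _
  rw [twR_apply, phi_apply]
  have h1 : ((((q : K) ^ (-(k : ℤ) * Multiplicative.toAdd (deg w))) • D.act (k + 1) w) u).1 =
      ((q : K) ^ (-(k : ℤ) * Multiplicative.toAdd (deg w))) • D.r w u.1 := rfl
  have hq' : (q : K) ≠ 0 := NeZero.ne _
  rw [h1, map_smul, neg_pow_comm, smul_smul, ← zpow_natCast, ← zpow_mul, ← zpow_add₀ hq']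
  congr 2
  have h2 : ((k - (j : ℕ) : ℕ) : ℤ) = (k : ℤ) - (j : ℕ) := by
    have := j.2
    omega
  rw [h2]
  ring

end WDRep

lemma trace_eq_neg_nextCoeff {K U : Type} [Field K] [AddCommGroup U] [Module K U]
    [FiniteDimensional K U] (A : Module.End K U) :
    LinearMap.trace K U A = -A.charpoly.nextCoeff := by
  rw [LinearMap.trace_eq_matrix_trace K (Module.finBasis K U), Matrix.trace_eq_neg_charpoly_nextCoeff,
    LinearMap.charpoly_toMatrix]

/-- A sequence with a linear recurrence with rational coefficients, the last of which is not zero, lies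
in a rational subspace if it does so from some index on. -/
lemma rec_mem {M : Type} [AddCommGroup M] [Module ℚ M] (S : Submodule ℚ M) (f : ℕ → M) (c : ℕ → ℚ)
    (d : ℕ) (hc : c 0 ≠ 0) (hr : ∀ j, ∑ i ∈ Finset.range (d + 1), c i • f (j + i) = 0) (j0 : ℕ)
    (h : ∀ j, j0 ≤ j → f j ∈ S) (j : ℕ) : f j ∈ S := by
  have key : ∀ m j : ℕ, j0 ≤ j + m → f j ∈ S := by
    intro m
    induction m with
    | zero => exact fun j hj => h j hj
    | succ m ih =>
      intro j hj
      have h1 := hr j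
      rw [Finset.sum_range_succ', add_zero] at h1
      have h2 : c 0 • f j ∈ S := by
        rw [add_comm] at h1
        rw [eq_neg_of_add_eq_zero_left h1]
        exact S.neg_mem (S.sum_mem fun i _ => S.smul_mem _ (ih _ (by omega)))
      exact (S.smul_mem_iff hc).1 h2
  exact key j0 j (by omega)

/-- The recurrence of the traces. -/
lemma sum_trace {K U : Type} [Field K] [AddCommGroup U] [Module K U] [FiniteDimensional K U]
    (A B : Module.End K U) (j : ℕ) :
    ∑ i ∈ Finset.range (B.charpoly.natDegree + 1),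
      B.charpoly.coeff i * LinearMap.trace K U (A * B ^ (j + i)) = 0 := by
  have h1 := LinearMap.aeval_self_charpoly B
  rw [aeval_eq_sum_range] at h1
  have h2 := congrArg (fun X => LinearMap.trace K U (A * B ^ j * X)) h1
  simp only [Finset.mul_sum, map_sum, mul_zero, map_zero, mul_smul_comm, map_smul, smul_eq_mul,
    mul_assoc, ← pow_add] at h2
  exact h2

/-- The coefficients of a polynomial in terms of its reverse. -/
lemma coeff_of_reverse {K : Type} [Field K] [CharZero K] {p : K[X]} (hp : p.coeff 0 ≠ 0) {P : ℚ[X]}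
    (h : p.reverse = P.map (algebraMap ℚ K)) :
    p.natDegree = P.natDegree ∧ ∀ i, p.coeff i = algebraMap ℚ K (P.coeff (revAt P.natDegree i)) := by
  have h1 : p.natTrailingDegree = 0 := natTrailingDegree_eq_zero_of_constantCoeff_ne_zero hp
  have h2 : p.natDegree = P.natDegree := by
    have h3 := reverse_natDegree p
    rw [h1, Nat.sub_zero, h, natDegree_map] at h3
    exact h3.symm
  refine ⟨h2, fun i => ?_⟩
  rw [← coeff_map, ← h, coeff_reverse, ← h2, revAt_invol]

section family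

variable {deg : W →* Multiplicative ℤ} {q : ℕ} [NeZero q] {Λ : Type} {K V : Λ → Type}
  [∀ ℓ, Field (K ℓ)] [∀ ℓ, CharZero (K ℓ)] [∀ ℓ, AddCommGroup (V ℓ)] [∀ ℓ, Module (K ℓ) (V ℓ)]
  [∀ ℓ, FiniteDimensional (K ℓ) (V ℓ)] (D : ∀ ℓ, WDRep deg q (K ℓ) (V ℓ)) (k : ℕ)

variable {D k}

open WDRep

/-- A common kernel. -/
lemma exists_J [Nonempty Λ] [IsTopologicalGroup W] {J0 : Subgroup W} (ho : IsOpen (J0 : Set W))
    (hJ0 : ∀ ℓ, ∀ g ∈ J0, deg g = 1 ∧ (D ℓ).r g = 1) :
    ∃ J : Subgroup W, IsOpen (J : Set W) ∧ (∀ g ∈ J, deg g = 1) ∧ (∀ ℓ, ∀ g ∈ J, (D ℓ).r g = 1) ∧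
      ∀ w, Normalises w J := by
  refine ⟨deg.ker ⊓ ⨅ ℓ, (D ℓ).r.ker, ?_, ?_, ?_, ?_⟩
  · refine Subgroup.isOpen_mono (fun g hg => ?_) ho
    refine Subgroup.mem_inf.2 ⟨?_, Subgroup.mem_iInf.2 fun ℓ => ?_⟩
    · rw [MonoidHom.mem_ker]
      exact (hJ0 (Classical.arbitrary Λ) g hg).1
    · rw [MonoidHom.mem_ker]
      exact (hJ0 ℓ g hg).2
  · intro g hg
    exact hg.1
  · intro ℓ g hg
    exact (Subgroup.mem_iInf.1 hg.2 ℓ)
  · intro w g
    have hn : (deg.ker ⊓ ⨅ ℓ, (D ℓ).r.ker).Normal := by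
      refine ⟨fun n hn g => Subgroup.mem_inf.2 ⟨?_, Subgroup.mem_iInf.2 fun ℓ => ?_⟩⟩
      · exact (MonoidHom.normal_ker deg).conj_mem n hn.1 g
      · exact (MonoidHom.normal_ker (D ℓ).r).conj_mem n (Subgroup.mem_iInf.1 hn.2 ℓ) g
    constructor
    · intro h
      exact hn.conj_mem g h w
    · intro h
      have := hn.conj_mem _ h w⁻¹
      simpa [mul_assoc] using this

/-- The polynomial for an element of positive degree. -/
lemma exists_P (h : EulerIndep D k) {J : Subgroup W} (ho : IsOpen (J : Set W))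
    (hdeg : ∀ g ∈ J, deg g = 1) (hJ : ∀ ℓ, ∀ g ∈ J, (D ℓ).r g = 1) (hn : ∀ w, Normalises w J)
    {w : W} (hw : 0 < Multiplicative.toAdd (deg w)) : ∃ P : ℚ[X], ∀ ℓ,
      (((q : K ℓ) ^ (-(k : ℤ) * Multiplicative.toAdd (deg w))) •
        (D ℓ).act (k + 1) w).charpoly.reverse = P.map (algebraMap ℚ (K ℓ)) := by
  obtain ⟨P, hP⟩ := h J w (hn w) ho hdeg hw
  exact ⟨P, fun ℓ => by
    rw [← hP, (D ℓ).euler_eq k J (fun g hg => ⟨hdeg g hg, hJ ℓ g hg⟩)]⟩

/-- The traces of the elements of positive degree. -/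
lemma exists_pos (h : EulerIndep D k) {J : Subgroup W} (ho : IsOpen (J : Set W))
    (hdeg : ∀ g ∈ J, deg g = 1) (hJ : ∀ ℓ, ∀ g ∈ J, (D ℓ).r g = 1) (hn : ∀ w, Normalises w J)
    {w : W} (hw : 0 < Multiplicative.toAdd (deg w)) : ∃ a : ℚ, ∀ ℓ,
      LinearMap.trace (K ℓ) _ ((D ℓ).act (k + 1) w) = a := by
  obtain ⟨P, hP⟩ := exists_P h ho hdeg hJ hn hw
  refine ⟨-((q : ℚ) ^ ((k : ℤ) * Multiplicative.toAdd (deg w)) * P.coeff 1), fun ℓ => ?_⟩
  have h1 := trace_eq_neg_nextCoeff (((q : K ℓ) ^ (-(k : ℤ) * Multiplicative.toAdd (deg w))) •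
        (D ℓ).act (k + 1) w)
  rw [← coeff_one_reverse, hP ℓ, coeff_map, map_smul, smul_eq_mul, neg_mul, zpow_neg] at h1
  have hq' : ((q : K ℓ) ^ ((k : ℤ) * Multiplicative.toAdd (deg w))) ≠ 0 :=
    zpow_ne_zero _ (NeZero.ne _)
  rw [inv_mul_eq_iff_eq_mul₀ hq'] at h1
  rw [h1]
  push_cast
  rw [eq_ratCast]
  ring

/-- **The common case**: one open subgroup acts trivially on all representations. -/
theorem common (hs : Function.Surjective deg) (h : EulerIndep D k) {J : Subgroup W}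
    (ho : IsOpen (J : Set W))
    (hdeg : ∀ g ∈ J, deg g = 1) (hJ : ∀ ℓ, ∀ g ∈ J, (D ℓ).r g = 1) (hn : ∀ w, Normalises w J)
    (w : W) : ∃ a : ℚ, ∀ ℓ, LinearMap.trace (K ℓ) _ ((D ℓ).act (k + 1) w) = a := by
  obtain ⟨Φ, hΦ⟩ := hs (Multiplicative.ofAdd 1)
  have hΦ1 : Multiplicative.toAdd (deg Φ) = 1 := by rw [hΦ, toAdd_ofAdd]
  obtain ⟨P, hP⟩ := exists_P h ho hdeg hJ hn (w := Φ) (by rw [hΦ1]; exact one_pos)
  set B : ∀ ℓ, Module.End (K ℓ) (LinearMap.ker ((D ℓ).N ^ (k + 1))) := fun ℓ =>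
    ((q : K ℓ) ^ (-(k : ℤ) * Multiplicative.toAdd (deg Φ))) • (D ℓ).act (k + 1) Φ with hB
  have hq' : ∀ ℓ, (q : K ℓ) ≠ 0 := fun ℓ => NeZero.ne _
  -- the constant coefficients
  have h0 : ∀ ℓ, (B ℓ).charpoly.coeff 0 ≠ 0 := by
    intro ℓ h1
    have h2 := LinearMap.det_eq_sign_charpoly_coeff (B ℓ)
    rw [h1, mul_zero] at h2
    have h3 : IsUnit (B ℓ) := by
      refine ⟨⟨B ℓ, ((q : K ℓ) ^ (-(k : ℤ) * Multiplicative.toAdd (deg Φ)))⁻¹ •
        (D ℓ).act (k + 1) Φ⁻¹, ?_, ?_⟩, rfl⟩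
      · rw [hB]
        simp only
        rw [smul_mul_smul_comm, ← act_mul, mul_inv_cancel, act_one,
          mul_inv_cancel₀ (zpow_ne_zero _ (hq' ℓ)), one_smul]
      · rw [hB]
        simp only
        rw [smul_mul_smul_comm, ← act_mul, inv_mul_cancel, act_one,
          inv_mul_cancel₀ (zpow_ne_zero _ (hq' ℓ)), one_smul]
    have h4 := h3.map (LinearMap.det)
    rw [h2] at h4
    exact not_isUnit_zero h4
  have hc := fun ℓ => coeff_of_reverse (h0 ℓ) (hP ℓ)
  rcases isEmpty_or_nonempty Λ with hΛ | hΛ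
  · exact ⟨0, fun ℓ => isEmptyElim ℓ⟩
  -- the recurrence
  have hrec := rec_mem (LinearMap.range (Algebra.linearMap ℚ (∀ ℓ, K ℓ)))
    (fun j => fun ℓ => LinearMap.trace (K ℓ) _ ((D ℓ).act (k + 1) w * B ℓ ^ j))
    (fun i => P.coeff (revAt P.natDegree i)) P.natDegree (fun h1 => by
      have := (hc hΛ.some).2 0
      rw [h1, map_zero] at this
      exact h0 _ this) (fun j => by
      funext ℓ
      have h1 := sum_trace ((D ℓ).act (k + 1) w) (B ℓ) j
      rw [(hc ℓ).1] at h1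
      rw [Finset.sum_apply, Pi.zero_apply, ← h1]
      refine Finset.sum_congr rfl fun i _ => ?_
      rw [(hc ℓ).2 i, Pi.smul_apply, Algebra.smul_def])
    (1 - Multiplicative.toAdd (deg w)).toNat (fun j hj => by
      have h1 : 0 < Multiplicative.toAdd (deg (w * Φ ^ j)) := by
        rw [map_mul, map_pow, toAdd_mul, toAdd_pow, hΦ1]
        simp only [nsmul_eq_mul, mul_one]
        omega
      obtain ⟨a, ha⟩ := exists_pos h ho hdeg hJ hn h1
      refine ⟨((q : ℚ) ^ (-(k : ℤ) * Multiplicative.toAdd (deg Φ))) ^ j * a, ?_⟩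
      funext ℓ
      have h2 : ∀ j : ℕ, B ℓ ^ j = (((q : K ℓ) ^ (-(k : ℤ) * Multiplicative.toAdd (deg Φ))) ^ j) •
          (D ℓ).act (k + 1) (Φ ^ j) := by
        intro j
        induction j with
        | zero => rw [pow_zero, pow_zero, pow_zero, one_smul, act_one]
        | succ j ih =>
          rw [pow_succ (B ℓ) j, ih, hB]
          simp only
          rw [smul_mul_smul_comm, ← act_mul, ← pow_succ, ← pow_succ]
      rw [h2, mul_smul_comm, ← act_mul, map_smul, ha, Algebra.linearMap_apply, Pi.algebraMap_apply,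
        map_mul, eq_ratCast, eq_ratCast, smul_eq_mul]
      push_cast
      rfl) 0
  obtain ⟨a, ha⟩ := hrec
  refine ⟨a, fun ℓ => ?_⟩
  have := congrFun ha ℓ
  rw [pow_zero, mul_one] at this
  rw [← this, Algebra.linearMap_apply, Pi.algebraMap_apply, eq_ratCast]

end family

/-- **The theorem.** -/
theorem main [IsTopologicalGroup W] {deg : W →* Multiplicative ℤ} (hs : Function.Surjective deg)
    {q : ℕ} [NeZero q]
    {Λ : Type} {K V : Λ → Type} [∀ ℓ, Field (K ℓ)] [∀ ℓ, CharZero (K ℓ)] [∀ ℓ, AddCommGroup (V ℓ)]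
    [∀ ℓ, Module (K ℓ) (V ℓ)] [∀ ℓ, FiniteDimensional (K ℓ) (V ℓ)]
    (D : ∀ ℓ, WDRep deg q (K ℓ) (V ℓ)) (k : ℕ) (h : EulerIndep D k) (w : W) :
    ∃ a : ℚ, ∀ ℓ, (D ℓ).tr (k + 1) w = a := by
  have pair : ∀ ℓ₁ ℓ₂ : Λ, ∃ a : ℚ, (D ℓ₁).tr (k + 1) w = a ∧ (D ℓ₂).tr (k + 1) w = a := by
    intro ℓ₁ ℓ₂
    let σ : Bool → Λ := fun b => if b then ℓ₁ else ℓ₂
    obtain ⟨J₁, ho₁, hJ₁⟩ := (D ℓ₁).smooth
    obtain ⟨J₂, ho₂, hJ₂⟩ := (D ℓ₂).smooth
    obtain ⟨J, ho, hdeg, hJ, hn⟩ := exists_J (D := fun b : Bool => D (σ b)) (J0 := J₁ ⊓ J₂)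
      (by rw [Subgroup.coe_inf]; exact ho₁.inter ho₂) (fun b g hg => by
        cases b with
        | true => exact hJ₁ g hg.1
        | false => exact hJ₂ g hg.2)
    obtain ⟨a, ha⟩ := common (D := fun b : Bool => D (σ b)) (k := k) hs
      (fun J w hw ho hJ hd => by
        obtain ⟨P, hP⟩ := h J w hw ho hJ hd
        exact ⟨P, fun b => hP (σ b)⟩) ho hdeg hJ hn w
    exact ⟨a, ha true, ha false⟩
  rcases isEmpty_or_nonempty Λ with hΛ | hΛ
  · exact ⟨0, fun ℓ => isEmptyElim ℓ⟩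
  · obtain ⟨ℓ₀⟩ := hΛ
    obtain ⟨a, ha, -⟩ := pair ℓ₀ ℓ₀
    refine ⟨a, fun ℓ => ?_⟩
    obtain ⟨b, hb, hb'⟩ := pair ℓ₀ ℓ
    have : a = b := by
      have := ha.symm.trans hb
      exact_mod_cast this
    rw [hb', this]

end Pool.Agent.R914.WD
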